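import Pool.Agent.Lib.MP_b5021c_nt.IfaceO4V
import Pool.Agent.Lib.MP_b5021c_nt.KO.H52.T11
import Pool.Agent.Lib.MP_b5021c_nt.OF.H29.Of1

/-!
# Board b5, rows O4_T10 and O4_TN
-/

namespace Pool.Agent.B5.O4V52

open scoped LaurentPolynomial
open Polynomial
open Pool.Agent.B5.OOne (IvD br_zero)
open Pool.Agent.B5.H52.T00

/-- A unit of `ℤ[T, T⁻¹]`. -/
theorem unit_form (hU : UnitRS) (u : (RO ℤ)ˣ) : ∃ (k ep : ℤ), (ep = 1 ∨ ep = -1) ∧
    (u : RO ℤ) = LaurentPolynomial.C ep * LaurentPolynomial.T k := by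
  obtain ⟨n, v, hv, h⟩ := (hU ℤ (u : RO ℤ)).mp u.isUnit
  exact ⟨n, v, Int.isUnit_iff.mp hv, h⟩

theorem T1_mul_Tn1 : (LaurentPolynomial.T 1 * LaurentPolynomial.T (-1) : RO ℤ) = 1 := by
  rw [← LaurentPolynomial.T_add, add_neg_cancel, LaurentPolynomial.T_zero]

theorem one_add_T_ne : (1 + LaurentPolynomial.T 1 : RO ℤ) ≠ 0 := by
  intro h
  have h1 : (toLaurent (1 + X : ℤ[X]) : RO ℤ) = 0 := by
    rw [map_add, map_one, toLaurent_X]
    exact h
  have h2 := toLaurent_eq_zero.mp h1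
  have h3 := congrArg (fun p : ℤ[X] => p.coeff 0) h2
  simp at h3

variable {P : Type} [Fintype P] [DecidableEq P] {L : Type} [AddCommGroup L] [Module.Free ℤ L]
  [Module.Finite ℤ L] {phi : L →+ (P → ℤ)} {D : AO ℤ L} {q f E : ℤ[X]} {a p : ℝ} {j : ℕ}
  {eta : L → (RO ℤ)ˣ} {g : ℕ} {C : Set L} {S0 S1 b : L} {e0 e1 e : (RO ℤ)ˣ} {m i k : ℕ}
  {pp r : RO ℤ}

theorem V_lau (f E : ℤ[X]) : (toLaurent ((1 + X) ^ 2 * f - X * E) : RO ℤ) =
    (1 + LaurentPolynomial.T 1) ^ 2 * toLaurent f - LaurentPolynomial.T 1 * toLaurent E := by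
  rw [map_sub, map_mul, map_mul, map_pow, map_add, map_one, toLaurent_X]

/-- Types `(i, 0)`: `M V = - z (1 + z)(f + e r)`. -/
theorem rel0 (H : Typ phi D f E S0 S1 e0 e1 b e m i 0 pp r) :
    fej 1 m * toLaurent ((1 + X) ^ 2 * f - X * E) =
      -(LaurentPolynomial.T 1 * (1 + LaurentPolynomial.T 1)) * (toLaurent f + (e : RO ℤ) * r) := by
  have hA := H.eA
  have hB := H.eB
  rw [add_zero] at hB
  rw [V_lau] at hA hB ⊢
  apply mul_left_cancel₀ one_add_T_ne
  have hT := T1_mul_Tn1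
  linear_combination (-LaurentPolynomial.T 1) * hA + LaurentPolynomial.T 1 * hB -
    (fej 1 m * ((1 + LaurentPolynomial.T 1) ^ 2 * toLaurent f - LaurentPolynomial.T 1 *
      toLaurent E)) * hT

/-- Types `(i, 1)`: `M V = (1 + z)(f + e r) - z E`. -/
theorem rel1 (H : Typ phi D f E S0 S1 e0 e1 b e m i 1 pp r) :
    fej 1 m * toLaurent ((1 + X) ^ 2 * f - X * E) =
      (1 + LaurentPolynomial.T 1) * (toLaurent f + (e : RO ℤ) * r) -
        LaurentPolynomial.T 1 * toLaurent E := by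
  have hA := H.eA
  have hB := H.eB
  have hp : (-LaurentPolynomial.T 1 : RO ℤ) ^ (i + 1) = (-LaurentPolynomial.T 1) ^ i *
      (-LaurentPolynomial.T 1) := pow_succ _ _
  rw [hp] at hB
  rw [V_lau] at hA hB ⊢
  apply mul_left_cancel₀ one_add_T_ne
  have hT := T1_mul_Tn1
  linear_combination (-LaurentPolynomial.T 1) * hA - hB -
    (fej 1 m * ((1 + LaurentPolynomial.T 1) ^ 2 * toLaurent f - LaurentPolynomial.T 1 *
      toLaurent E)) * hT

variable {i0 : P} {h0 : co phi i0 S0 = 1} {T : Ker (co phi i0)} {x : ℝ}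

theorem ivd52 (h : KvB phi D q f E a p j eta g C S0 S1 e0 e1 i0 h0 T x) : IvD q f E a p j :=
  ⟨h.k.o, h.k.eq, h.n, h.k.ez, fun z hz => by simpa using h.rn.loc.le z hz⟩

/-- The value of `1 + ep z^n`. -/
theorem one_add_ne {w : ℂ} (hw : ‖w‖ < 1) {ep : ℤ} (hep : ep = 1 ∨ ep = -1) {n : ℕ}
    (hn : n ≠ 0) : 1 + (algebraMap ℤ ℂ ep) * w ^ n ≠ 0 := by
  intro h1
  have h2 : ‖(algebraMap ℤ ℂ ep) * w ^ n‖ < 1 := by
    have h3 : ‖w ^ n‖ < 1 := by
      rw [norm_pow]
      exact pow_lt_one₀ (norm_nonneg _) hw hn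
    rcases hep with h4 | h4
    · rw [h4, map_one, one_mul]
      exact h3
    · rw [h4, map_neg, map_one, neg_one_mul, norm_neg]
      exact h3
  have h3 : (algebraMap ℤ ℂ ep) * w ^ n = -1 := by linear_combination h1
  rw [h3, norm_neg, norm_one] at h2
  exact lt_irrefl _ h2

theorem pow_add_ne {w : ℂ} (hw : ‖w‖ < 1) {ep : ℤ} (hep : ep = 1 ∨ ep = -1) {n : ℕ}
    (hn : n ≠ 0) : w ^ n + (algebraMap ℤ ℂ ep) ≠ 0 := by
  intro h1
  have h3 : ‖w ^ n‖ < 1 := by
    rw [norm_pow]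
    exact pow_lt_one₀ (norm_nonneg _) hw hn
  have h4 : w ^ n = -(algebraMap ℤ ℂ ep) := by linear_combination h1
  rw [h4, norm_neg] at h3
  rcases hep with h5 | h5
  · rw [h5, map_one, norm_one] at h3
    exact lt_irrefl _ h3
  · rw [h5, map_neg, map_one, norm_neg, norm_one] at h3
    exact lt_irrefl _ h3

/-- (T10) the type `(1, 0)`, complex zero. -/
theorem t10c (h : IvD q f E a p j) {m : ℕ} (hm : 1 ≤ m) {k ep : ℤ} (hep : ep = 1 ∨ ep = -1)
    (hx : ∃ w : ℂ, ‖w‖ < 1 ∧ (aeval w ((1 + X) ^ 2 * f - X * E) : ℂ) = 0)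
    (hR : fej 1 m * toLaurent ((1 + X) ^ 2 * f - X * E) =
      -(LaurentPolynomial.T 1 * (1 + LaurentPolynomial.T 1)) * (toLaurent f +
        LaurentPolynomial.C ep * LaurentPolynomial.T k * toLaurent f)) : False := by
  set V : ℤ[X] := (1 + X) ^ 2 * f - X * E with hV
  have hV0 : V.coeff 0 = 1 := by
    rw [hV]
    simp only [coeff_sub, mul_coeff_zero, pow_two, coeff_add, coeff_one_zero, coeff_X_zero, h.o.f0]
    norm_num
  obtain ⟨w, hw1, hwV⟩ := hx
  have hEx := h.ez w hw1.le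
  have hw0 : w ≠ 0 := by
    rintro rfl
    rw [aeval_def, eval₂_at_zero] at hwV
    rw [hV0, map_one] at hwV
    exact one_ne_zero hwV
  have hVx : (1 + w) ^ 2 * (aeval w f : ℂ) - w * aeval w E = 0 := by
    rw [hV] at hwV
    simpa using hwV
  have hfx : (aeval w f : ℂ) ≠ 0 := by
    intro h1
    rw [h1, mul_zero, zero_sub, neg_eq_zero] at hVx
    exact mul_ne_zero hw0 hEx hVx
  -- multiplied by `T (m - 1)`
  have h1 : toLaurent (br m ^ 2 * V) = -(LaurentPolynomial.T (m : ℤ) *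
      (1 + LaurentPolynomial.T 1)) * (toLaurent f +
        LaurentPolynomial.C ep * LaurentPolynomial.T k * toLaurent f) := by
    have h2 := congrArg (fun P => LaurentPolynomial.T ((m : ℤ) - 1) * P) hR
    have h3 : LaurentPolynomial.T ((m : ℤ) - 1) * (fej 1 m * toLaurent V) =
        toLaurent (br m ^ 2 * V) := by
      rw [← mul_assoc, T_mul_fej, map_mul]
    have h4 : (LaurentPolynomial.T (m : ℤ) : RO ℤ) =
        LaurentPolynomial.T ((m : ℤ) - 1) * LaurentPolynomial.T 1 := by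
      rw [← LaurentPolynomial.T_add]
      congr 1
      ring
    rw [← h3, h4]
    rw [h2]
    ring
  have hTX : ∀ n : ℕ, (LaurentPolynomial.T (n : ℤ) : RO ℤ) = toLaurent (X ^ n) := fun n =>
    (toLaurent_X_pow n).symm
  have hT1 : (LaurentPolynomial.T 1 : RO ℤ) = toLaurent X := toLaurent_X.symm
  have hxm : w ^ m ≠ 0 := pow_ne_zero m hw0
  have hx11 : (1 + w) ≠ 0 := by
    intro h2
    have h3 : w = -1 := by linear_combination h2
    rw [h3, norm_neg, norm_one] at hw1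
    exact lt_irrefl _ hw1
  rcases lt_or_ge k 0 with hk | hk
  · obtain ⟨n, hn⟩ : ∃ n : ℕ, (n : ℤ) = -k := ⟨(-k).toNat, by omega⟩
    have hn1 : n ≠ 0 := by omega
    have h2 : (X ^ n * (br m ^ 2 * V) : ℤ[X]) =
        -(X ^ m * (1 + X)) * ((X ^ n + Polynomial.C ep) * f) := by
      apply toLaurent_injective
      rw [map_mul, h1, ← hTX]
      simp only [map_mul, map_neg, map_add, map_one, ← hT1, ← hTX, toLaurent_C]
      have h3 : (LaurentPolynomial.T k * LaurentPolynomial.T (n : ℤ) : RO ℤ) = 1 := by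
        rw [← LaurentPolynomial.T_add, hn, add_neg_cancel, LaurentPolynomial.T_zero]
      linear_combination -(LaurentPolynomial.T (m : ℤ) * (1 + LaurentPolynomial.T 1)) *
        LaurentPolynomial.C ep * toLaurent f * h3
    have h3 := congrArg (fun P => (aeval w P : ℂ)) h2
    simp only [map_mul, map_neg, map_add, map_pow, map_one, aeval_X, aeval_C, hwV, mul_zero] at h3
    exact mul_ne_zero (neg_ne_zero.mpr (mul_ne_zero hxm hx11))
      (mul_ne_zero (pow_add_ne hw1 hep hn1) hfx) h3.symm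
  · obtain ⟨n, hn⟩ : ∃ n : ℕ, (n : ℤ) = k := ⟨k.toNat, by omega⟩
    subst hn
    have h2 : (br m ^ 2 * V : ℤ[X]) =
        -(X ^ m * (1 + X)) * ((1 + Polynomial.C ep * X ^ n) * f) := by
      apply toLaurent_injective
      rw [h1]
      simp only [map_mul, map_neg, map_add, map_one, ← hT1, ← hTX, toLaurent_C]
      ring
    rcases Nat.eq_zero_or_pos n with hn0 | hn0
    · subst hn0
      have h3 := congrArg (fun P : ℤ[X] => P.coeff 0) h2
      simp only [mul_coeff_zero, pow_two, coeff_neg, br_zero hm, hV0, coeff_X_pow] at h3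
      rw [if_neg (by omega)] at h3
      norm_num at h3
    · have h3 := congrArg (fun P => (aeval w P : ℂ)) h2
      simp only [map_mul, map_neg, map_add, map_pow, map_one, aeval_X, aeval_C, hwV, mul_zero] at h3
      exact mul_ne_zero (neg_ne_zero.mpr (mul_ne_zero hxm hx11))
        (mul_ne_zero (one_add_ne hw1 hep (by omega)) hfx) h3.symm

/-- `f + e r`, for `r = u f`. -/
theorem unit_fr (hU : UnitRS) (e u : (RO ℤ)ˣ) (hr : r = (u : RO ℤ) * toLaurent f) :
    ∃ (k ep : ℤ), (ep = 1 ∨ ep = -1) ∧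
      (e : RO ℤ) * r = LaurentPolynomial.C ep * LaurentPolynomial.T k * toLaurent f := by
  obtain ⟨k, ep, hep, h⟩ := unit_form hU (e * u)
  refine ⟨k, ep, hep, ?_⟩
  rw [hr, ← mul_assoc, ← Units.val_mul, h]

/-- Row O4_T10. -/
theorem o4t10 (hU : UnitRS) : O4t10S := by
  intro P L _ _ _ _ _ phi D q f E a p j eta g C S0 S1 e0 e1 i0 h0 T x b e u m pp r hK hT hr
  obtain ⟨k, ep, hep, h⟩ := unit_fr hU e u hr
  have h1 := rel0 hT
  rw [h] at h1
  exact t10c (ivd52 hK) hT.m1 hep hT.rt h1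

theorem fej_two (z : Circle) (hz : (z : ℂ) = -1) : evR z (fej 1 2) = 0 := by
  have h1 : (fej 1 2 : RO ℤ) = (1 + LaurentPolynomial.T 1) * (1 + LaurentPolynomial.T (-1)) := by
    unfold fej
    simp [Finset.sum_range_succ]
  have h2 : (1 + LaurentPolynomial.T 1 : RO ℤ) = toLaurent (1 + X : ℤ[X]) := by
    rw [map_add, map_one, toLaurent_X]
  rw [h1, map_mul, h2, evR_pl]
  simp [hz]

/-- Row O4_TN. -/
theorem o4tn (hU : UnitRS) : O4tnS := by
  intro P L _ _ _ _ _ phi D q f E a p j eta g C S0 S1 e0 e1 i0 h0 T x b e u m i pp r hK hT hr hm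
  obtain ⟨k, ep, hep, h⟩ := unit_fr hU e u hr
  have h1 := rel1 hT
  rw [h] at h1
  rcases Nat.lt_or_ge m 3 with hm3 | hm3
  · have hm2 : m = 2 := by omega
    subst hm2
    have hz : ((-1 : Circle) : ℂ) = -1 := by simp
    have h2 := congrArg (fun P => evR (-1 : Circle) P) h1
    simp only [map_mul, map_sub, fej_two _ hz, zero_mul] at h2
    have h3 : (1 + LaurentPolynomial.T 1 : RO ℤ) = toLaurent (1 + X : ℤ[X]) := by
      rw [map_add, map_one, toLaurent_X]
    rw [h3, evR_pl, ← toLaurent_X, evR_pl, evR_pl] at h2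
    simp only [hz, map_add, map_one, aeval_X, add_neg_cancel, zero_mul, zero_sub, neg_mul, one_mul,
      neg_neg] at h2
    exact hK.k.ez (-1) (by simp) h2.symm
  · exact (ivd52 hK).tn hm3 hep h1

end Pool.Agent.B5.O4V52
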