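import Pool.Agent.Lib.MP_b5021c_nt.O4V.H52.T1
import Pool.Agent.Lib.MP_b5021c_nt.O4V.H96.Face
import Pool.Agent.Lib.MP_b5021c_nt.KE.H96.Mid

/-!
# Board b5, row O4_T11
-/

namespace Pool.Agent.B5.O4V52

open scoped LaurentPolynomial
open Polynomial
open Pool.Agent.B5.KE
open Pool.Agent.B5.H52.T00 (evR_pl)
open Pool.Agent.B5.H52.T11 (t11_core)

section

variable {P : Type} [Fintype P] [DecidableEq P] {L : Type} [AddCommGroup L] [Module.Free ℤ L]
  [Module.Finite ℤ L] {phi : L →+ (P → ℤ)} {D : AO ℤ L} {q f E : ℤ[X]} {a p : ℝ} {j : ℕ}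
  {eta : L → (RO ℤ)ˣ} {g : ℕ} {C : Set L} {S0 S1 b : L} {e0 e1 e : (RO ℤ)ˣ} {pp r : RO ℤ}

/-- The relations of the type `(1, 1)`, `m = 1`. -/
theorem rel11 (H : Typ phi D f E S0 S1 e0 e1 b e 1 1 1 pp r) :
    (e : RO ℤ) * r = LaurentPolynomial.T 1 * toLaurent f ∧
      (e : RO ℤ) * pp * LaurentPolynomial.T 1 ^ 2 = LaurentPolynomial.T 1 * toLaurent E -
        (1 + LaurentPolynomial.T 1) ^ 3 * toLaurent f := by
  have h1 := rel1 H
  have h2 := H.eB
  rw [OFH29.fej_one, one_mul, V_lau] at h1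
  have h3 : (e : RO ℤ) * r = LaurentPolynomial.T 1 * toLaurent f := by
    apply mul_left_cancel₀ one_add_T_ne
    linear_combination -h1
  refine ⟨h3, ?_⟩
  rw [V_lau, h3] at h2
  linear_combination h2

/-- The value of `p` on the circle. -/
theorem norm_pp (hFcm : FcmS) (hMco : McoS) (hEv : EvRS) (K : K4 phi D q f E a p j eta g C S0 S1 e0 e1)
    (H : Typ phi D f E S0 S1 e0 e1 b e 1 1 1 pp r) (z : Circle) :
    ‖evR z pp‖ = ‖(aeval (z : ℂ) E : ℂ)‖ := by
  obtain ⟨h1, h2⟩ := rel11 H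
  have hT : ∀ z : Circle, evR z (LaurentPolynomial.T 1 : RO ℤ) = (z : ℂ) := by
    intro z
    rw [← toLaurent_X, evR_pl, aeval_X]
  have ev1 : ∀ z : Circle, evR z ((e : RO ℤ) * r) = (z : ℂ) * aeval (z : ℂ) f := by
    intro z
    rw [h1, map_mul, hT, evR_pl]
  have ev2 : ∀ z : Circle, evR z ((e : RO ℤ) * pp) * (z : ℂ) ^ 2 =
      (z : ℂ) * aeval (z : ℂ) E - (1 + (z : ℂ)) ^ 3 * aeval (z : ℂ) f := by
    intro z
    have h3 := congrArg (fun P => evR z P) h2
    simp only [map_mul, map_sub, map_add, map_one, map_pow, hT, evR_pl] at h3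
    rw [map_mul]
    exact h3
  have hcore := t11_core (f := f) (E := E) (by
    intro w hw s hs
    obtain ⟨z, rfl⟩ : ∃ z : Circle, (z : ℂ) = w := ⟨⟨w, mem_sphere_zero_iff_norm.mpr hw⟩, rfl⟩
    have hx : ‖-((z : ℂ) * s)‖ < 1 := by
      rw [norm_neg, norm_mul, Circle.norm_coe, one_mul]
      exact hs
    have h3 := O4.face3 hFcm hMco K H.bin H.b0 H.out H.nf e z hx hx hs
    rw [pow_one, ev1 z] at h3
    intro h4
    apply h3
    linear_combination (1 - s) * h4 + s ^ 3 * ev2 z)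
  have h5 := hcore (z : ℂ) (Circle.norm_coe z)
  rw [← ev2 z, norm_mul, norm_pow, Circle.norm_coe, one_pow, mul_one, map_mul, norm_mul,
    (hEv ℤ).2.1 z (e : RO ℤ) e.isUnit, one_mul] at h5
  exact h5

/-- The coefficients of `V_A(S0)` in the class of `b`. -/
theorem va_coef (hV : VcoS) (hMco : McoS) (hD : DD phi D) (mt : Mut D S0 S1 (-e0) (-e1))
    (hout : Out phi S0 S1 b) (hN : Nf D S0 S1 (-e0) (-e1) b 1 1 pp r) :
    vco (-e0) S0 D b = 0 ∧ vco (-e0) S0 D S1 = 0 ∧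
      ((-e1 : (RO ℤ)ˣ) : RO ℤ) * vco (-e0) S0 D (b + S1) = pp := by
  obtain ⟨hdis, c1, c2, -⟩ := hMco ℤ P L phi D S0 S1 (-e0) (-e1) hD.inj hD.bin mt
  obtain ⟨-, -, v3, -, -⟩ := hV ℤ P L phi D S0 (-e0) hD.inj hD.bin (hD.bin S0 mt.r0.1) mt.r0.2.1
  have d1 : ∀ i, phi b i = 0 ∨ phi S0 i = 0 := fun i => (hout i).imp id And.left
  have d2 : ∀ i, phi S1 i = 0 ∨ phi S0 i = 0 := fun i => (hdis i).symm
  have d3 : ∀ i, phi (b + S1) i = 0 ∨ phi S0 i = 0 := by
    intro i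
    rw [map_add, Pi.add_apply]
    rcases d1 i with h1 | h1
    · rcases d2 i with h2 | h2
      · left
        rw [h1, h2, add_zero]
      · right
        exact h2
    · right
      exact h1
  have hu : ∀ u : (RO ℤ)ˣ, (u : RO ℤ) ≠ 0 := fun u => u.ne_zero
  refine ⟨?_, ?_, ?_⟩
  · rw [v3 b d1, hN.c00, hN.c10]
    simp
  · rw [v3 S1 d2]
    apply mul_left_cancel₀ (hu (-e1))
    rw [mul_zero, mul_add, c1, add_comm S1 S0]
    linear_combination c2
  · rw [v3 (b + S1) d3, mul_add, hN.c01, show b + S1 + S0 = b + S0 + S1 by abel]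
    have h1 := hN.c11
    simp only [and_self, if_true] at h1
    simp only [zero_ne_one, one_ne_zero, and_false, false_and, if_false]
    linear_combination h1

open Classical in
/-- The ports outside `S0`, `S1`, `b`. -/
noncomputable def lamO (phi : L →+ (P → ℤ)) (S0 S1 b : L) (i0 : P) : Ker (co phi i0) →+ ℤ :=
  (∑ i ∈ Finset.univ.filter (fun i => phi S0 i = 0 ∧ phi S1 i = 0 ∧ phi b i = 0), co phi i).comp
    (incl (Ker (co phi i0)))

open Classical in
theorem lamO_apply (phi : L →+ (P → ℤ)) (S0 S1 b : L) (i0 : P) (y : Ker (co phi i0)) :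
    lamO phi S0 S1 b i0 y = ∑ i ∈ Finset.univ.filter
      (fun i => phi S0 i = 0 ∧ phi S1 i = 0 ∧ phi b i = 0), phi (y : L) i := by
  unfold lamO
  rw [AddMonoidHom.comp_apply, AddMonoidHom.finsetSum_apply]
  rfl

/-- The element `b + S1` is a ray of `V_A(S0)`. -/
theorem va_ray (hV : VcoS) (hMco : McoS) (hD : DD phi D) (mt : Mut D S0 S1 (-e0) (-e1))
    (hbin : Bin phi b) (hb0 : b ≠ 0) (hout : Out phi S0 S1 b)
    (hN : Nf D S0 S1 (-e0) (-e1) b 1 1 pp r) (hpp : pp ≠ 0)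
    (hind : ∀ y : L, (∀ i, phi S0 i = 0 → phi S1 i = 0 → phi b i = 0 → phi y i = 0) →
      ∃ k l m : ℤ, y = k • b + l • S0 + m • S1) {i0 : P} (h0 : co phi i0 S0 = 1)
    {x0 : Ker (co phi i0)} (hx0 : (x0 : L) = b + S1) :
    Ray (cl (co phi i0) S0 h0 (-e0) D) x0 := by
  classical
  obtain ⟨hdis, -, -, -⟩ := hMco ℤ P L phi D S0 S1 (-e0) (-e1) hD.inj hD.bin mt
  obtain ⟨-, v2, -, -, v5⟩ := hV ℤ P L phi D S0 (-e0) hD.inj hD.bin (hD.bin S0 mt.r0.1) mt.r0.2.1
  obtain ⟨k1, k2, k3⟩ := va_coef hV hMco hD mt hout hN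
  have hb1 := hD.bin S1 mt.r1.1
  have h0' : phi S0 i0 = 1 := h0
  -- ports of `b` and of `S1`
  have hport : ∀ {y : L}, Bin phi y → y ≠ 0 → ∃ i, phi y i = 1 := by
    intro y hy hy0
    by_contra hcon
    push Not at hcon
    apply hy0
    apply hD.inj
    rw [map_zero]
    funext i
    exact (hy i).resolve_right (hcon i)
  obtain ⟨ib, hib⟩ := hport hbin hb0
  obtain ⟨i1, hi1⟩ := hport hb1 mt.r1.2.1
  have hib0 : phi S0 ib = 0 ∧ phi S1 ib = 0 :=
    (hout ib).resolve_left (by rw [hib]; exact one_ne_zero)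
  have hi1b : phi b i1 = 0 := by
    rcases hout i1 with h | h
    · exact h
    · rw [hi1] at h
      exact absurd h.2 one_ne_zero
  have hi10 : phi S0 i1 = 0 := (hdis i1).resolve_right (by rw [hi1]; exact one_ne_zero)
  have hbi0 : phi b i0 = 0 := (hout i0).resolve_right (by
    rintro ⟨h, -⟩
    rw [h0'] at h
    exact one_ne_zero h)
  have h1i0 : phi S1 i0 = 0 := (hdis i0).resolve_left (by rw [h0']; exact one_ne_zero)
  -- exponents of the closing
  have hbinO : ∀ y : Ker (co phi i0), (cl (co phi i0) S0 h0 (-e0) D).coeff y ≠ 0 →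
      ∀ i, phi S0 i = 0 → phi (y : L) i = 0 ∨ phi (y : L) i = 1 := by
    intro y hy i hi
    rw [v5 i0 h0 y] at hy
    obtain ⟨k, hk⟩ := v2 _ hy
    have h1 := hD.bin _ hk i
    rw [map_add, map_zsmul, Pi.add_apply, Pi.smul_apply, hi, smul_zero, add_zero] at h1
    exact h1
  have hlam : ∀ y : Ker (co phi i0), (cl (co phi i0) S0 h0 (-e0) D).coeff y ≠ 0 →
      0 ≤ lamO phi S0 S1 b i0 y ∧ (lamO phi S0 S1 b i0 y = 0 →
        ∀ i, phi S0 i = 0 → phi S1 i = 0 → phi b i = 0 → phi (y : L) i = 0) := by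
    intro y hy
    rw [lamO_apply]
    have hnn : ∀ i ∈ Finset.univ.filter (fun i => phi S0 i = 0 ∧ phi S1 i = 0 ∧ phi b i = 0),
        0 ≤ phi (y : L) i := by
      intro i hi
      have h1 := (Finset.mem_filter.mp hi).2
      rcases hbinO y hy i h1.1 with h2 | h2
      · rw [h2]
      · rw [h2]
        exact zero_le_one
    refine ⟨Finset.sum_nonneg hnn, fun h1 i hi0 hi1 hi2 => ?_⟩
    exact (Finset.sum_eq_zero_iff_of_nonneg hnn).mp h1 i
      (Finset.mem_filter.mpr ⟨Finset.mem_univ i, hi0, hi1, hi2⟩)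
  refine ⟨?_, ?_, lamO phi S0 S1 b i0, ?_, ?_⟩
  · intro h
    change (cl (co phi i0) S0 h0 (-e0) D).coeff x0 = 0 at h
    rw [v5 i0 h0 x0, hx0] at h
    rw [h, mul_zero] at k3
    exact hpp k3.symm
  · intro h
    rw [h] at hx0
    have h1 := congrArg (fun v : L => phi v ib) hx0
    simp only [map_add, Pi.add_apply, hib, hib0.2, add_zero] at h1
    change phi (0 : L) ib = 1 at h1
    rw [map_zero] at h1
    exact zero_ne_one h1
  · rw [lamO_apply]
    apply Finset.sum_eq_zero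
    intro i hi
    have h1 := (Finset.mem_filter.mp hi).2
    rw [hx0, map_add, Pi.add_apply, h1.2.1, h1.2.2, add_zero]
  · intro y hy hy0 hyx
    obtain ⟨n1, n2⟩ := hlam y hy
    rcases n1.lt_or_eq with h1 | h1
    · exact h1
    · exfalso
      obtain ⟨k, l, m, hk⟩ := hind (y : L) (n2 h1.symm)
      have eb := congrArg (fun v : L => phi v ib) hk
      simp only [map_add, map_zsmul, Pi.add_apply, Pi.smul_apply, hib, hib0.1, hib0.2, smul_eq_mul,
        mul_one, mul_zero, add_zero] at eb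
      have e1 := congrArg (fun v : L => phi v i1) hk
      simp only [map_add, map_zsmul, Pi.add_apply, Pi.smul_apply, hi1, hi1b, hi10, smul_eq_mul,
        mul_one, mul_zero, zero_add] at e1
      have e0' := congrArg (fun v : L => phi v i0) hk
      simp only [map_add, map_zsmul, Pi.add_apply, Pi.smul_apply, h0', hbi0, h1i0, smul_eq_mul,
        mul_one, mul_zero, add_zero, zero_add] at e0'
      have hy1 : phi (y : L) i0 = 0 := y.2
      have hl : l = 0 := by rw [← e0', hy1]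
      rw [hl, zero_smul, add_zero] at hk
      have hkk := hbinO y hy ib hib0.1
      have hmm := hbinO y hy i1 hi10
      rw [eb] at hkk
      rw [e1] at hmm
      have hyne : (cl (co phi i0) S0 h0 (-e0) D).coeff y ≠ 0 := hy
      rw [v5 i0 h0 y] at hyne
      rcases hkk with rfl | rfl <;> rcases hmm with rfl | rfl
      · apply hy0
        apply Subtype.ext
        rw [hk]
        simp
      · rw [zero_smul, one_smul, zero_add] at hk
        rw [hk] at hyne
        exact hyne k2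
      · rw [zero_smul, one_smul, add_zero] at hk
        rw [hk] at hyne
        exact hyne k1
      · apply hyx
        apply Subtype.ext
        rw [hk, hx0, one_smul, one_smul]

/-- A ray of the closing is a ray of a factor, with proportional coefficients. -/
theorem ray_fac (hWW : WWfS) (hRF : RayFacS) (hClp : ClpS) (hC0 : Coeff0S) (hG0 : G0S)
    (hI1 : Inj1S) (fp : FP phi D) {S : L} (hS : Ray D S) {u : (RO ℤ)ˣ} {i0 : P}
    (h : co phi i0 S = 1) {c : RO ℤ} {n : ℕ} {G : Fin n → AO ℤ (Ker (co phi i0))}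
    (fd : FD phi D S i0 u h c n G) {x0 : Ker (co phi i0)}
    (hray : Ray (cl (co phi i0) S h u D) x0) :
    ∃ (l : Fin n) (w : RO ℤ) (K : Submodule ℤ (Ker (co phi i0))) (x1 : K), w ≠ 0 ∧
      (x1 : Ker (co phi i0)) = x0 ∧ Module.finrank ℤ K = rk (supp (G l)) ∧
      DD ((phO phi S i0).comp (incl K)) (res K (G l)) ∧ Ray (res K (G l)) x1 ∧
      (cl (co phi i0) S h u D).coeff 0 = w * (res K (G l)).coeff 0 ∧
      (cl (co phi i0) S h u D).coeff x0 = w * (res K (G l)).coeff x1 := by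
  classical
  have hsup : supp (cl (co phi i0) S h u D) = supp (∏ i, G i) := by
    rw [fd.eq, H56.supp_cst_mul fd.c0]
  obtain ⟨l, hl⟩ := hRF ℤ P L phi D S i0 u h c n G fd x0 hray
  obtain ⟨hst, -, -, -, -, -⟩ := hG0 ℤ P L phi D S i0 u h fd.cc
  obtain ⟨hV0, lam, hpos, -⟩ := id hst
  have hGz : ∀ i, (G i).coeff 0 ≠ 0 := fun i => (fd.st i).1
  have hsplit : ∏ i, G i = G l * ∏ i ∈ Finset.univ.erase l, G i :=
    (Finset.mul_prod_erase Finset.univ G (Finset.mem_univ l)).symm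
  obtain ⟨hH0, -⟩ := H29.prod_coeff_zero hC0 G lam (fun i => (fd.full i lam hpos).2.1)
    (Finset.univ.erase l)
  have hcoef : ∀ y ∈ supp (G l), (∏ i, G i).coeff y =
      (G l).coeff y * ∏ i ∈ Finset.univ.erase l, (G i).coeff 0 := by
    intro y hy
    rw [hsplit, ← hH0]
    apply coef_split hWW (psi := phO phi S i0) ((hI1 ℤ P L phi D fp S hS).2 i0 h)
    · intro a ha
      rw [← hsplit, ← hsup] at ha
      exact (hClp ℤ P L phi D S i0 u h c n G fp fd).1 a ha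
    · exact hGz l
    · rw [hH0]
      exact Finset.prod_ne_zero_iff.mpr fun i _ => hGz i
    · exact hy
  obtain ⟨-, K, -, hK1, hK2, hK3⟩ := (hClp ℤ P L phi D S i0 u h c n G fp fd).2 l
  have hw : (∏ i ∈ Finset.univ.erase l, (G i).coeff 0) ≠ 0 :=
    Finset.prod_ne_zero_iff.mpr fun i _ => hGz i
  have hcst : ∀ y, (cl (co phi i0) S h u D).coeff y = c * (∏ i, G i).coeff y := by
    intro y
    rw [fd.eq]
    exact AddMonoidAlgebra.coeff_single_zero_mul _ c y
  have hsub : ∀ y ∈ supp (G l), y ∈ supp (cl (co phi i0) S h u D) := by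
    intro y hy
    change (cl (co phi i0) S h u D).coeff y ≠ 0
    rw [hcst, hcoef y hy]
    exact mul_ne_zero fd.c0 (mul_ne_zero hy hw)
  refine ⟨l, c * ∏ i ∈ Finset.univ.erase l, (G i).coeff 0, K, ⟨x0, hK1 x0 hl⟩,
    mul_ne_zero fd.c0 hw, rfl, hK2, hK3, ?_, ?_, ?_⟩
  · obtain ⟨-, hx0, mu, hmu0, hmu⟩ := hray
    refine ⟨?_, ?_, mu.comp (incl K), ?_, ?_⟩
    · exact hl
    · intro h1
      exact hx0 (congrArg Subtype.val h1)
    · exact hmu0
    · intro y hy hy0 hyx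
      apply hmu (y : Ker (co phi i0)) (hsub _ hy)
      · intro h1
        exact hy0 (Subtype.ext h1)
      · intro h1
        exact hyx (Subtype.ext h1)
  · rw [hcst, hcoef 0 (hGz l)]
    change c * ((G l).coeff 0 * _) = c * _ * (G l).coeff 0
    ring
  · rw [hcst, hcoef x0 hl]
    change c * ((G l).coeff x0 * _) = c * _ * (G l).coeff x0
    ring

end

/-- Row O4_T11. -/
theorem o4t11 (hFcm : FcmS) (hMco : McoS) (hEv : EvRS) (hV : VcoS) (hFD : FDS) (hA : O4aS)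
    (hWW : WWfS) (hRF : RayFacS) (hClp : ClpS) (hC0 : Coeff0S) (hG0 : G0S) (hI1 : Inj1S)
    (hE2 : E2S) : O4t11S := by
  intro P L _ _ _ _ _ phi D q f E a p j eta C S0 S1 e0 e1 i0 h0 T x b e u pp r hK hT _ hind
  have K := hK.k
  have fp := K.kc.ko.min.fp
  have hD : DD phi D := fp.dd
  have h2 : 2 ≤ Module.finrank ℤ L := by
    have := K.kc.ko.rk
    have := K.kc.ko.j2
    omega
  obtain ⟨c, n, G, fd⟩ := hFD ℤ P L phi D S0 i0 (-e0) h0 ⟨hD, h2, K.mt.r0, h0, V0_ne_A K.r0⟩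
  obtain ⟨-, -, -, h3⟩ := hA P L phi D q f E a p j eta C S0 S1 e0 e1 i0 h0 c n G K fd
  have hnorm := norm_pp hFcm hMco hEv K hT
  have hEne : ∀ z : Circle, (aeval (z : ℂ) E : ℂ) ≠ 0 := fun z => K.ez z (Circle.norm_coe z).le
  have hpp : pp ≠ 0 := by
    intro h
    have h4 := hnorm 1
    rw [h, map_zero, norm_zero] at h4
    exact hEne 1 (norm_eq_zero.mp h4.symm)
  obtain ⟨hdis, -, -, -⟩ := hMco ℤ P L phi D S0 S1 (-e0) (-e1) hD.inj hD.bin K.mt
  have h0' : phi S0 i0 = 1 := h0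
  have hbi0 : phi b i0 = 0 := (hT.out i0).resolve_right (by
    rintro ⟨h, -⟩
    rw [h0'] at h
    exact one_ne_zero h)
  have h1i0 : phi S1 i0 = 0 := (hdis i0).resolve_left (by rw [h0']; exact one_ne_zero)
  obtain ⟨x0, hx0⟩ : ∃ x0 : Ker (co phi i0), (x0 : L) = b + S1 := ⟨⟨b + S1, by
    rw [mem_Ker]
    change phi (b + S1) i0 = 0
    rw [map_add, Pi.add_apply, hbi0, h1i0, add_zero]⟩, rfl⟩
  have hray := va_ray hV hMco hD K.mt hT.bin hT.b0 hT.out hT.nf hpp hind h0 hx0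
  obtain ⟨l, w, KK, x1, hw, hx1, hr1, hdd, hrr, hc0, hcx⟩ := ray_fac hWW hRF hClp hC0 hG0 hI1 fp
    K.mt.r0 h0 fd hray
  have h4 : 2 ≤ Module.finrank ℤ KK := by
    have := h3 l
    omega
  obtain ⟨z, hz⟩ := ((hE2 ℤ P KK _ _ hdd h4).2.2.2.2.2 x1 hrr).2
  apply hz
  -- the values
  obtain ⟨-, -, v3, -, v5⟩ := hV ℤ P L phi D S0 (-e0) hD.inj hD.bin (hD.bin S0 K.mt.r0.1)
    K.mt.r0.2.1
  obtain ⟨-, -, k3⟩ := va_coef hV hMco hD K.mt hT.out hT.nf
  have e1' : ‖evR z ((cl (co phi i0) S0 h0 (-e0) D).coeff x0)‖ = ‖(aeval (z : ℂ) E : ℂ)‖ := by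
    rw [v5 i0 h0 x0, hx0, ← hnorm z, ← k3, map_mul, norm_mul, (hEv ℤ).2.1 z _ (-e1).isUnit, one_mul]
  have e2' : ‖evR z ((cl (co phi i0) S0 h0 (-e0) D).coeff 0)‖ = ‖(aeval (z : ℂ) E : ℂ)‖ := by
    rw [v5 i0 h0 0]
    have h5 : vco (-e0) S0 D ((0 : Ker (co phi i0)) : L) = toLaurent (q - f) := by
      have h6 := v3 0 (fun i => Or.inl (by rw [map_zero]; rfl))
      rw [zero_add, V0_A K.r0] at h6
      exact h6
    rw [h5, show q - f = -(X * E) by linear_combination -K.eq, map_neg, map_neg, norm_neg,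
      evR_pl, map_mul, aeval_X, norm_mul, Circle.norm_coe, one_mul]
  rw [hcx, map_mul, norm_mul] at e1'
  rw [hc0, map_mul, norm_mul] at e2'
  have h6 : ‖evR z w‖ ≠ 0 := by
    intro h7
    rw [h7, zero_mul] at e2'
    exact hEne z (norm_eq_zero.mp e2'.symm)
  exact mul_left_cancel₀ h6 (e1'.trans e2'.symm)

end Pool.Agent.B5.O4V52
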